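import Pool.Agent.Q235.FD.LinePts

/-!
# Plane curves and hypersurfaces whose coefficients arise from arbitrary integers by changing a few digits: no rational points on the lines of
small height

Let `F_m` be a form of degree `n` in `N + 1` variables all of whose coefficients are integers obtained by changing a few digits of arbitrary integers
at random positions (`N = 2`: plane curves of degree `n`, genus `(n - 1) (n - 2) / 2` if smooth). We show for almost all choices of the
positions: for ALL lines in `ℙ ^ N` spanned by two integral vectors of size at most `x ^ B`, where `x` is `exp (const d)`, `d` the number of the digits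
changed, the restriction of `F_m` to the line is irreducible over `ℚ`; so if `n ≥ 2`, no rational point of the hypersurface, of
any height, lies on one of these lines, and more generally no point defined over a number field of degree less than `n`.

The proof uses the law for functions of the residues of such tuples (library `TH894.NE`): for all the lines at once the restriction
modulo `p` is irreducible for the expected proportion of the primes `p`.
-/

set_option autoImplicit false

namespace Pool.Agent.Results.MP_10e784_ag.FewDigitHypersurfaces

open Finset Pool.Agent.Q235.FD

/-- For all `N`, degrees `n ≥ 1`, bases `b ≥ 2`, `A` and `B`, for almost all vectors `m` of coefficients obtained by changing a few digits of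
arbitrary integers: for all linearly independent integral vectors `P`, `Q` of size at most `x ^ B` the restriction of `F_m` to the line
through `P` and `Q` is irreducible of degree `n` over `ℚ`, and `F_m (a P + c Q) ≠ 0` for all `(a, c) ≠ (0, 0)` in a field of degree less than
`n` over `ℚ`. -/
theorem result (N n : ℕ) (hn : 1 ≤ n) (b : ℕ) (hb : 2 ≤ b) (A B : ℕ) :
    ForAlmostAll (Mo N n) b A (fun (_ : Unit) x m => ∀ P Q : Fin (N + 1) → ℤ, (∀ i, |P i| ≤ (x : ℤ) ^ B) → (∀ i, |Q i| ≤ (x : ℤ) ^ B) →
      (∃ i j, P i * Q j ≠ P j * Q i) → IrreducibleOn (fun e => (m e : ℤ)) P Q) := by
  refine ForAlmostAll.mono (lines N n hn hb A B) 0 ?_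
  intro _ x m _ h P Q hP hQ hind
  refine irreducibleOn_of _ P Q (h P Q hP hQ hind) (h Q P hQ hP ?_)
  obtain ⟨i, j, hij⟩ := hind
  exact ⟨i, j, fun h' => hij (by rw [mul_comm (P i), mul_comm (P j)]; exact h'.symm)⟩

end Pool.Agent.Results.MP_10e784_ag.FewDigitHypersurfaces
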