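import Pool.Agent.Q196.SV.Main

/-!
# An effective polynomial bound for the integer points on 100% of the plane curves of degree `d ≥ 4`

Let `d ≥ 4` and let `B(F) = ((d + 1) h(F)) ^ C`, `C = 10^17 1296^d (d+1)^15`, where `h(F)` is the sum
of the absolute values of the coefficients of `F ∈ ℤ[x, y]`. Let `M` be any set of monomials of degree
at most `d` which contains `x^d`, `y^d`, a monomial of degree `d - 2` and a monomial of degree at most
`d - 4`; for example all monomials of degree at most `d`, or the powers of `x` and of `y` (the equations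
`P(x) = Q(y)` with polynomials of degree `d`), or only the four monomials `x^d, y^d, x^(d-2), 1`.

There are `(2H + 1) ^ |M|` linear combinations `F` of monomials in `M` with integral coefficients in
`[-H, H]`, and for all but at most `10^9 36^d (d+1)^8 (2H + 1) ^ (|M| - 1)` of them either `F` is
reducible over `ℚ` or all integer points `(x, y)` of the curve `F = 0` satisfy
`max(|x|, |y|) ≤ B(F)`. In particular, the computable bound `B` is correct for 100% of the curves of
degree `d`, and for 100% of the curves in each of these sparse families.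
-/

set_option autoImplicit false

namespace Pool.Agent.Results.MP_821da1_nt.AlmostAllPlaneCurves

open Filter Topology

/-- The linear combinations of the monomials in `M` with integral coefficients in `[-H, H]`. -/
def Box (M : Finset (Fin 2 →₀ ℕ)) (H : ℕ) : Set (MvPolynomial (Fin 2) ℤ) :=
  {F | F.support ⊆ M ∧ ∀ m, |F.coeff m| ≤ (H : ℤ)}

/-- The bound for the integer points, a polynomial in the sum of the absolute values of the
coefficients. -/
def bound (d : ℕ) (F : MvPolynomial (Fin 2) ℤ) : ℕ :=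
  ((d + 1) * ∑ m ∈ F.support, (F.coeff m).natAbs) ^ (10 ^ 17 * 1296 ^ d * (d + 1) ^ 15)

/-- `F` is irreducible over `ℚ` and there is an integer point on `F = 0` beyond the bound. -/
def Exceptional (d : ℕ) (F : MvPolynomial (Fin 2) ℤ) : Prop :=
  Irreducible (MvPolynomial.map (Int.castRingHom ℚ) F) ∧
    ∃ x y : ℤ, MvPolynomial.eval ![x, y] F = 0 ∧ bound d F < max x.natAbs y.natAbs

lemma box_eq (M : Finset (Fin 2 →₀ ℕ)) (H : ℕ) : Box M H = Pool.Agent.Q196.SV.PB M H := by
  ext F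
  refine and_congr_left fun _ => ?_
  constructor
  · intro h m hm
    by_contra h1
    exact hm (h (MvPolynomial.mem_support_iff.2 h1))
  · intro h m hm
    by_contra h1
    exact (MvPolynomial.mem_support_iff.1 hm) (h m h1)

theorem result (d : ℕ) (hd : 4 ≤ d) (M : Finset (Fin 2 →₀ ℕ)) (hM : ∀ m ∈ M, m 0 + m 1 ≤ d)
    -- the monomials `x ^ d` and `y ^ d`
    (hx : Finsupp.single 0 d ∈ M) (hy : Finsupp.single 1 d ∈ M)
    -- a monomial of degree `d - 2` and a monomial of degree at most `d - 4`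
    (h2 : ∃ m ∈ M, m 0 + m 1 + 2 = d) (h4 : ∃ m ∈ M, m 0 + m 1 + 4 ≤ d) :
    (∀ H : ℕ, (Box M H).ncard = (2 * H + 1) ^ M.card) ∧
    (∀ H : ℕ, {F ∈ Box M H | Exceptional d F}.ncard ≤
      10 ^ 9 * 36 ^ d * (d + 1) ^ 8 * (2 * H + 1) ^ (M.card - 1)) ∧
    Tendsto (fun H : ℕ => ({F ∈ Box M H | Exceptional d F}.ncard : ℝ) / ((Box M H).ncard : ℝ))
      atTop (𝓝 0) := by
  have h1 : ∀ H : ℕ, (Box M H).ncard = (2 * H + 1) ^ M.card := by
    intro H
    rw [box_eq, Pool.Agent.Q196.SV.PB_ncard]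
  have h2 : ∀ H : ℕ, {F ∈ Box M H | Exceptional d F}.ncard ≤
      10 ^ 9 * 36 ^ d * (d + 1) ^ 8 * (2 * H + 1) ^ (M.card - 1) := by
    intro H
    have h3 := Pool.Agent.Q196.SV.main hd
      (fun m hm => (Pool.Agent.Q196.SV.mem_mons d m).2 (hM m hm)) hx hy h2 h4 H
    rw [box_eq]
    refine h3.trans ?_
    apply Nat.mul_le_mul_right
    have h4 : 1 ≤ 36 ^ d := Nat.one_le_pow _ _ (by norm_num)
    have h5 : d + 1 ≤ (d + 1) ^ 7 := by
      calc d + 1 = (d + 1) ^ 1 := (pow_one _).symm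
        _ ≤ (d + 1) ^ 7 := Nat.pow_le_pow_right (by omega) (by norm_num)
    have h6 : 2 * d + 1 ≤ 10 ^ 9 * 36 ^ d * (d + 1) ^ 7 := by
      calc 2 * d + 1 ≤ 10 ^ 9 * 1 * (d + 1) := by omega
        _ ≤ 10 ^ 9 * 36 ^ d * (d + 1) ^ 7 :=
          Nat.mul_le_mul (Nat.mul_le_mul_left _ h4) h5
    calc 2 * d + 1 + 10 ^ 9 * 36 ^ d * (d + 1) ^ 7 * d
        ≤ 10 ^ 9 * 36 ^ d * (d + 1) ^ 7 + 10 ^ 9 * 36 ^ d * (d + 1) ^ 7 * d :=
          Nat.add_le_add_right h6 _
      _ = 10 ^ 9 * 36 ^ d * (d + 1) ^ 8 := by ring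
  refine ⟨h1, h2, ?_⟩
  obtain ⟨n, hn⟩ : ∃ n, M.card = n + 1 := by
    have : 0 < M.card := Finset.card_pos.2 ⟨_, hx⟩
    exact ⟨M.card - 1, by omega⟩
  have h3 : Tendsto (fun H : ℕ => ((10 ^ 9 * 36 ^ d * (d + 1) ^ 8 : ℕ) : ℝ) / ((2 * H + 1 : ℕ) : ℝ))
      atTop (𝓝 0) := by
    apply Tendsto.div_atTop tendsto_const_nhds
    apply tendsto_natCast_atTop_atTop.comp
    apply tendsto_atTop_mono (f := fun H : ℕ => H) (fun H => by omega) tendsto_id
  refine squeeze_zero (fun H => by positivity) (fun H => ?_) h3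
  rw [h1 H, hn]
  have h4 := h2 H
  rw [hn, Nat.add_sub_cancel] at h4
  have h5 : (0 : ℝ) < ((2 * H + 1 : ℕ) : ℝ) := by positivity
  rw [div_le_div_iff₀ (by positivity) h5]
  have h6 : (({F ∈ Box M H | Exceptional d F}.ncard : ℕ) : ℝ) ≤
      ((10 ^ 9 * 36 ^ d * (d + 1) ^ 8 * (2 * H + 1) ^ n : ℕ) : ℝ) := by exact_mod_cast h4
  refine (mul_le_mul_of_nonneg_right h6 h5.le).trans (le_of_eq ?_)
  push_cast
  ring

end Pool.Agent.Results.MP_821da1_nt.AlmostAllPlaneCurves
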